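import Pool.Agent.Helper82.EN.Stmts

set_option autoImplicit false

/-! # Module CNT: there is a late block which is not touched by the events of bad blocks -/

namespace Pool.Agent.Helper82.EN

open Finset

theorem cnt_ev {p : ℕ → ℤ} {S : ℕ → ℕ} {l t t' : ℕ} (h : Ev p S l t) (h' : Ev p S l t') :
    t = t' := by
  have key : ∀ t t' : ℕ, Ev p S l t → Ev p S l t' → ¬ t < t' := by
    rintro t t' ⟨a1, a2, _⟩ ⟨b1, b2, u, c1, c2, c3⟩ hlt
    have h1 := b2 t (by omega) hlt
    have h2 := a2 u c1 (by omega)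
    omega
  have h1 := key t t' h h'
  have h2 := key t' t h' h
  omega

theorem cnt_evp {p : ℕ → ℤ} {S : ℕ → ℕ} {l t t' : ℕ} (h : EvP p S l t) (h' : EvP p S l t') :
    t = t' := by
  rcases lt_trichotomy t t' with h1 | h1 | h1
  · exact absurd h.1 (h'.2 t h1)
  · exact h1
  · exact absurd h'.1 (h.2 t' h1)

/-- a finite set of numbers with differences below `16` has at most `16` elements -/
theorem cnt_card (A : Finset ℕ) (h : ∀ k ∈ A, ∀ k' ∈ A, k < k' → k' < k + 16) :
    A.card ≤ 16 := by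
  rcases A.eq_empty_or_nonempty with h0 | h0
  · simp [h0]
  · have h1 : A ⊆ Finset.Ico (A.min' h0) (A.min' h0 + 16) := by
      intro k hk
      rw [Finset.mem_Ico]
      have h2 := A.min'_le k hk
      refine ⟨h2, ?_⟩
      rcases h2.lt_or_eq with h3 | h3
      · exact h _ (A.min'_mem h0) k hk h3
      · omega
    calc A.card ≤ _ := Finset.card_le_card h1
      _ = 16 := by simp

open Classical in
/-- the blocks touched by an event -/
theorem cnt_touch (S : ℕ → ℕ) (hS : StrictMonoOn S (Set.Ici 1)) (E : ℕ → Prop)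
    (hE : ∀ t t', E t → E t' → t = t') (K : Finset ℕ) (hK : ∀ k ∈ K, 14 ≤ k) :
    (K.filter fun k => ∃ t, E t ∧ S (k - 13) ≤ t ∧ t < S (k + 3)).card ≤ 16 := by
  apply cnt_card
  intro k hk k' hk' hlt
  rw [Finset.mem_filter] at hk hk'
  obtain ⟨hkK, t, ht, ht1, ht2⟩ := hk
  obtain ⟨hkK', t', ht', ht1', ht2'⟩ := hk'
  have := hE t t' ht ht'
  subst this
  have h1 : S (k' - 13) < S (k + 3) := by omega
  have h14 := hK k' hkK'
  have h2 := (hS.lt_iff_lt (show k' - 13 ∈ Set.Ici 1 by simp only [Set.mem_Ici]; omega)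
    (show k + 3 ∈ Set.Ici 1 by simp only [Set.mem_Ici]; omega)).1 h1
  omega

/-- Module CNT. -/
theorem st_CNT : ST_CNT := by
  classical
  intro p S good N hS hS01 hbad hN hp hcard
  set B := (range (N + 1)).filter fun k => ¬ good k with hB
  set K := Finset.Icc ((N + 1) / 2) (N - 2) with hKdef
  have hK14 : ∀ k ∈ K, 14 ≤ k := by
    intro k hk
    rw [hKdef, Finset.mem_Icc] at hk
    omega
  -- the first kind of excluded blocks
  set X1 := B.biUnion fun b => Finset.Ico (b - 2) (b + 14) with hX1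
  have hX1c : X1.card ≤ 16 * B.card := by
    calc X1.card ≤ ∑ b ∈ B, (Finset.Ico (b - 2) (b + 14)).card := Finset.card_biUnion_le
      _ ≤ ∑ _b ∈ B, 16 := Finset.sum_le_sum fun b _ => by rw [Nat.card_Ico]; omega
      _ = 16 * B.card := by rw [Finset.sum_const, smul_eq_mul, mul_comm]
  -- labels near bad blocks
  set L := insert (N - 1) (B.biUnion fun b => Finset.Ico (b - 2) (b + 3)) with hL
  have hLc : L.card ≤ 5 * B.card + 1 := by
    have h1 : (B.biUnion fun b => Finset.Ico (b - 2) (b + 3)).card ≤ 5 * B.card := by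
      calc _ ≤ ∑ b ∈ B, (Finset.Ico (b - 2) (b + 3)).card := Finset.card_biUnion_le
        _ ≤ ∑ _b ∈ B, 5 := Finset.sum_le_sum fun b _ => by rw [Nat.card_Ico]; omega
        _ = 5 * B.card := by rw [Finset.sum_const, smul_eq_mul, mul_comm]
    exact (Finset.card_insert_le _ _).trans (by omega)
  set F : ℕ → Finset ℕ := fun l =>
    (K.filter fun k => ∃ t, Ev p S l t ∧ S (k - 13) ≤ t ∧ t < S (k + 3)) ∪
    ((K.filter fun k => ∃ t, Ev (fun u => -p u) S l t ∧ S (k - 13) ≤ t ∧ t < S (k + 3)) ∪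
    (K.filter fun k => ∃ t, EvP p S l t ∧ S (k - 13) ≤ t ∧ t < S (k + 3))) with hF
  have hFc : ∀ l, (F l).card ≤ 48 := by
    intro l
    have h1 := cnt_touch S hS (Ev p S l) (fun t t' => cnt_ev) K hK14
    have h2 := cnt_touch S hS (Ev (fun u => -p u) S l) (fun t t' => cnt_ev) K hK14
    have h3 := cnt_touch S hS (EvP p S l) (fun t t' => cnt_evp) K hK14
    have h4 := Finset.card_union_le
      (K.filter fun k => ∃ t, Ev p S l t ∧ S (k - 13) ≤ t ∧ t < S (k + 3))
      ((K.filter fun k => ∃ t, Ev (fun u => -p u) S l t ∧ S (k - 13) ≤ t ∧ t < S (k + 3)) ∪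
        (K.filter fun k => ∃ t, EvP p S l t ∧ S (k - 13) ≤ t ∧ t < S (k + 3)))
    have h5 := Finset.card_union_le
      (K.filter fun k => ∃ t, Ev (fun u => -p u) S l t ∧ S (k - 13) ≤ t ∧ t < S (k + 3))
        (K.filter fun k => ∃ t, EvP p S l t ∧ S (k - 13) ≤ t ∧ t < S (k + 3))
    simp only [hF]
    omega
  set X2 := L.biUnion F with hX2
  have hX2c : X2.card ≤ 48 * (5 * B.card + 1) := by
    calc X2.card ≤ ∑ l ∈ L, (F l).card := Finset.card_biUnion_le
      _ ≤ ∑ _l ∈ L, 48 := Finset.sum_le_sum fun l _ => hFc l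
      _ = 48 * L.card := by rw [Finset.sum_const, smul_eq_mul, mul_comm]
      _ ≤ _ := Nat.mul_le_mul_left _ hLc
  have hKc : K.card = N - 2 + 1 - (N + 1) / 2 := by rw [hKdef, Nat.card_Icc]
  obtain ⟨k, hkK, hkX⟩ : ∃ k ∈ K, k ∉ X1 ∪ X2 := by
    by_contra hc
    push Not at hc
    have h1 : K ⊆ X1 ∪ X2 := hc
    have h2 := Finset.card_le_card h1
    have h3 := Finset.card_union_le X1 X2
    omega
  rw [Finset.mem_union, not_or] at hkX
  obtain ⟨hk1, hk2⟩ := hkX
  have hkI : (N + 1) / 2 ≤ k ∧ k ≤ N - 2 := by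
    rw [hKdef, Finset.mem_Icc] at hkK
    exact hkK
  have h14 := hK14 k hkK
  refine ⟨k, by omega, h14, by omega, ?_, ?_⟩
  · intro j hj1 hj2
    by_contra hg
    apply hk1
    rw [hX1, Finset.mem_biUnion]
    refine ⟨j, ?_, ?_⟩
    · rw [hB, Finset.mem_filter, Finset.mem_range]
      exact ⟨by omega, hg⟩
    · rw [Finset.mem_Ico]
      omega
  · intro l hl t ht1 ht2
    have hmain : l + 1 < k + 3 → l ∈ L := by
      intro hlk
      obtain ⟨b, hb, hb1, hb2⟩ := hl
      rw [hL, Finset.mem_insert, Finset.mem_biUnion]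
      by_cases hbN : N < b
      · left
        omega
      · right
        refine ⟨b, ?_, ?_⟩
        · rw [hB, Finset.mem_filter, Finset.mem_range]
          exact ⟨by omega, hb⟩
        · rw [Finset.mem_Ico]
          omega
    have hlt : S (l + 1) < S (k + 3) → l + 1 < k + 3 := fun h =>
      (hS.lt_iff_lt (show l + 1 ∈ Set.Ici 1 by simp only [Set.mem_Ici]; omega)
        (show k + 3 ∈ Set.Ici 1 by simp only [Set.mem_Ici]; omega)).1 h
    have hex : l ∈ L → k ∉ F l := fun h h' => hk2 (Finset.mem_biUnion.2 ⟨l, h, h'⟩)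
    refine ⟨fun h => ?_, fun h => ?_, fun h => ?_⟩
    · have h1 := hmain (hlt (lt_of_le_of_lt h.1 ht2))
      apply hex h1
      simp only [hF, Finset.mem_union, Finset.mem_filter]
      exact Or.inl ⟨hkK, t, h, ht1, ht2⟩
    · have h1 := hmain (hlt (lt_of_le_of_lt h.1 ht2))
      apply hex h1
      simp only [hF, Finset.mem_union, Finset.mem_filter]
      exact Or.inr (Or.inl ⟨hkK, t, h, ht1, ht2⟩)
    · have hS1 : S 1 ≤ t := by
        refine le_trans ?_ ht1
        exact hS.monotoneOn (show 1 ∈ Set.Ici 1 by simp)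
          (show k - 13 ∈ Set.Ici 1 by simp only [Set.mem_Ici]; omega) (by omega)
      have h0 := hp t hS1
      have h0' := h.1
      have h1 := hmain (hlt (by omega))
      apply hex h1
      simp only [hF, Finset.mem_union, Finset.mem_filter]
      exact Or.inr (Or.inr ⟨hkK, t, h, ht1, ht2⟩)

end Pool.Agent.Helper82.EN
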